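import Pool.Agent.helper12.PFS.Spec

/-!
Row pfs:CHF: an elementary abelian normal subgroup of a finite solvable group.
-/

set_option autoImplicit false

namespace Pool.Agent.PFS

open scoped commutatorElement

theorem CHF : CHF_stmt := by
  classical
  intro G _ _ hs hc
  have hex : ∃ n, derivedSeries G n = ⊥ := hs.solvable
  have hn := Nat.find_spec hex
  have hmin := fun m => Nat.find_min hex (m := m)
  generalize Nat.find hex = n at hn hmin
  have hn0 : n ≠ 0 := by
    rintro rfl
    rw [derivedSeries_zero] at hn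
    have h1 : Nat.card (⊤ : Subgroup G) = Nat.card (⊥ : Subgroup G) := by rw [hn]
    rw [Subgroup.card_top, Subgroup.card_bot] at h1
    omega
  obtain ⟨k, rfl⟩ := Nat.exists_eq_succ_of_ne_zero hn0
  have hA : derivedSeries G k ≠ ⊥ := hmin k (Nat.lt_succ_self k)
  have hcomm : ∀ x ∈ derivedSeries G k, ∀ y ∈ derivedSeries G k, x * y = y * x := by
    intro x hx y hy
    have h1 : ⁅x, y⁆ ∈ derivedSeries G (k + 1) := by
      rw [derivedSeries_succ]
      exact Subgroup.commutator_mem_commutator hx hy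
    rw [show derivedSeries G (k + 1) = ⊥ from hn, Subgroup.mem_bot] at h1
    exact commutatorElement_eq_one_iff_mul_comm.1 h1
  have hcard : Nat.card (derivedSeries G k) ≠ 1 := by
    intro h1
    exact hA (Subgroup.card_eq_one.1 h1)
  obtain ⟨p, hp, hpd⟩ := Nat.exists_prime_and_dvd hcard
  have : Fact p.Prime := ⟨hp⟩
  obtain ⟨x0, hx0⟩ := exists_prime_orderOf_dvd_card' p hpd
  let K : Subgroup G :=
    { carrier := {x | x ∈ derivedSeries G k ∧ x ^ p = 1}
      mul_mem' := by
        rintro a b ⟨ha, ha'⟩ ⟨hb, hb'⟩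
        refine ⟨mul_mem ha hb, ?_⟩
        have h1 : Commute a b := hcomm a ha b hb
        rw [h1.mul_pow, ha', hb', one_mul]
      one_mem' := ⟨one_mem _, one_pow _⟩
      inv_mem' := by
        rintro a ⟨ha, ha'⟩
        exact ⟨inv_mem ha, by rw [inv_pow, ha', inv_one]⟩ }
  have hKmem : ∀ x, x ∈ K ↔ x ∈ derivedSeries G k ∧ x ^ p = 1 := fun x => Iff.rfl
  refine ⟨p, K, hp, ⟨?_⟩, ?_, ?_, ?_⟩
  · intro x hx g
    obtain ⟨h1, h2⟩ := (hKmem x).1 hx
    refine (hKmem _).2 ⟨(derivedSeries_normal G k).conj_mem x h1 g, ?_⟩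
    rw [conj_pow, h2, mul_one, mul_inv_cancel]
  · have hx1 : (x0 : G) ∈ K := by
      refine (hKmem _).2 ⟨x0.2, ?_⟩
      have h1 : x0 ^ p = 1 := by rw [← hx0, pow_orderOf_eq_one]
      have h2 := congrArg (fun t : derivedSeries G k => (t : G)) h1
      exact h2
    have hx2 : (x0 : G) ≠ 1 := by
      intro h1
      have h2 : x0 = 1 := Subtype.ext h1
      rw [h2, orderOf_one] at hx0
      exact hp.one_lt.ne hx0
    rw [Finite.one_lt_card_iff_nontrivial]
    exact ⟨⟨⟨(x0 : G), hx1⟩, 1, fun h => hx2 (congrArg Subtype.val h)⟩⟩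
  · intro x hx y hy
    exact hcomm x ((hKmem x).1 hx).1 y ((hKmem y).1 hy).1
  · intro x hx
    exact ((hKmem x).1 hx).2

end Pool.Agent.PFS
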